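import Pool.Agent.Run7.h184.AJ.Defs
import Pool.Agent.N64.AF.E5

/-!
# The law for the kernels and the cokernels of the Abel–Jacobi maps of all powers
-/

set_option autoImplicit false
set_option linter.unusedSectionVars false

open CategoryTheory Limits MonoidalCategory Module Filter Topology
open Pool.Agent.Y112.SR Pool.Agent.Y112.KD Pool.Agent.N64.AF
open scoped ENNReal

namespace Pool.Agent.Run7.h184.AJ

universe v u w t x

section Dim

variable {Λ : Type t} [Field Λ]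

/-- Rank and nullity. -/
lemma dimE_ker_add_range {V : Type v} {W : Type w} [AddCommGroup V] [Module Λ V] [AddCommGroup W]
    [Module Λ W] (f : V →ₗ[Λ] W) :
    dimE Λ (LinearMap.ker f) + dimE Λ (LinearMap.range f) = dimE Λ V := by
  have h := LinearMap.lift_rank_range_add_rank_ker f
  have h1 := congrArg Cardinal.toENat h
  rw [map_add, Cardinal.toENat_lift, Cardinal.toENat_lift, Cardinal.toENat_lift] at h1
  unfold dimE
  rw [← h1, add_comm]

/-- Quotients. -/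
lemma dimE_quot_add {V : Type v} [AddCommGroup V] [Module Λ V] (S : Submodule Λ V) :
    dimE Λ (V ⧸ S) + dimE Λ S = dimE Λ V := by
  unfold dimE
  rw [← map_add, Submodule.rank_quotient_add_rank]

end Dim

variable {C : Type u} [Category.{v} C] [Preadditive C] [MonoidalCategory C]
  [MonoidalPreadditive C] [SymmetricCategory C] [RightRigidCategory C]
  {Λ : Type t} [Field Λ] [CharZero Λ] [Linear Λ C] [MonoidalLinear Λ C]
  {K : Type w} [Field K] [IsAlgClosed K] [Algebra Λ K] {R : SuperRealisation C K}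

/-- The growth of the nonzero values of an additive functor on the powers of `T`. -/
theorem gap {T : C} [ExactPairing T T] (h : IsPow Λ R T) (F : C ⥤ ModuleCat.{x} Λ)
    [F.Additive] [F.Linear Λ] {m n : ℕ} (hn : 128 * (m + 1) ^ 2 * bt R T ^ (2 * m + 6) ≤ 2 * n)
    (hF : ¬ Subsingleton (F.obj (tp T m))) :
    Large Λ R T n (dimE Λ (F.obj (tp T (2 * n)))) := by
  have h0 : (numRank Λ (tp T (2 * n)) : ℕ∞) ≤ 2 * dimE Λ (F.obj (tp T (2 * n))) := by
    by_contra hlt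
    rw [not_le] at hlt
    obtain ⟨h2, h3⟩ := dimE_lt hlt
    exact hF (explicit_criterion h F hn h2 h3)
  refine ⟨h0, ?_⟩
  have h1 := growth (Λ := Λ) h.real h.cplus n
  rw [nr_tp h.real T n n, ← pow_mul] at h1
  have h2 : n + n = 2 * n := by ring
  rw [h2] at h1
  calc ((bt R T ^ (2 * n) : ℕ) : ℕ∞)
      ≤ (((n + 1) ^ (bt R T ^ 2) * numRank Λ (tp T (2 * n)) : ℕ) : ℕ∞) := by exact_mod_cast h1
    _ = (((n + 1) ^ (bt R T ^ 2) : ℕ) : ℕ∞) * (numRank Λ (tp T (2 * n)) : ℕ∞) := by push_cast; rfl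
    _ ≤ (((n + 1) ^ (bt R T ^ 2) : ℕ) : ℕ∞) * (2 * dimE Λ (F.obj (tp T (2 * n)))) := by gcongr
    _ = (2 * (n + 1) ^ (bt R T ^ 2) : ℕ) * dimE Λ (F.obj (tp T (2 * n))) := by
        push_cast; ring

/-- The kernel functor. -/
def kerF {F G : C ⥤ ModuleCat.{x} Λ} (φ : F ⟶ G) : C ⥤ ModuleCat.{x} Λ :=
  sub F _ (ker_stab φ)

/-- The cokernel functor. -/
def cokF {F G : C ⥤ ModuleCat.{x} Λ} (φ : F ⟶ G) : C ⥤ ModuleCat.{x} Λ :=
  quoS G _ (range_stab φ)

instance {F G : C ⥤ ModuleCat.{x} Λ} (φ : F ⟶ G) [F.Additive] : (kerF φ).Additive := by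
  unfold kerF; infer_instance

instance {F G : C ⥤ ModuleCat.{x} Λ} (φ : F ⟶ G) [F.Additive] [F.Linear Λ] :
    (kerF φ).Linear Λ := by
  unfold kerF; infer_instance

instance {F G : C ⥤ ModuleCat.{x} Λ} (φ : F ⟶ G) [G.Additive] : (cokF φ).Additive := by
  unfold cokF; infer_instance

instance {F G : C ⥤ ModuleCat.{x} Λ} (φ : F ⟶ G) [G.Additive] [G.Linear Λ] :
    (cokF φ).Linear Λ := by
  unfold cokF; infer_instance

lemma sub_ker {F G : C ⥤ ModuleCat.{x} Λ} (φ : F ⟶ G) (Y : C) :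
    Subsingleton ((kerF φ).obj Y) ↔ Function.Injective (φ.app Y) := by
  have h : Function.Injective (φ.app Y) ↔ Function.Injective (φ.app Y).hom := Iff.rfl
  rw [h, ← LinearMap.ker_eq_bot]
  exact Submodule.subsingleton_iff_eq_bot

lemma sub_cok {F G : C ⥤ ModuleCat.{x} Λ} (φ : F ⟶ G) (Y : C) :
    Subsingleton ((cokF φ).obj Y) ↔ Function.Surjective (φ.app Y) := by
  have h : Function.Surjective (φ.app Y) ↔ Function.Surjective (φ.app Y).hom := Iff.rfl
  rw [h, ← LinearMap.range_eq_top]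
  exact Submodule.Quotient.subsingleton_iff

/-- The dimensions. -/
lemma dim_sum {F G : C ⥤ ModuleCat.{x} Λ} (φ : F ⟶ G) (Y : C) :
    dimE Λ (F.obj Y) + cokerDim φ Y = dimE Λ (G.obj Y) + kerDim φ Y := by
  unfold cokerDim kerDim
  rw [← dimE_ker_add_range (φ.app Y).hom, ← dimE_quot_add (LinearMap.range (φ.app Y).hom)]
  ac_rfl

namespace TrivialIdeal

variable (I : TrivialIdeal Λ R)

instance : I.ch.Additive := by unfold ch; infer_instance

instance : I.ch.Linear Λ := by unfold ch; infer_instance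

/-! ### Compositions of homologically trivial morphisms -/

lemma JPow.comp {T : C} (k : ℕ) : ∀ {W Y Z : C} (g : W ⟶ Y) {f : Y ⟶ Z}, I.JPow T k f →
    I.JPow T k (g ≫ f) := by
  induction k with
  | zero => intro W Y Z g f _; trivial
  | succ k ih =>
    rintro W Y Z g f ⟨b, g₀, y, hg, hy, rfl⟩
    exact ⟨b, g ≫ g₀, y, ih g hg, hy, (Category.assoc _ _ _).symm⟩

lemma JPow.whisker {T : C} (k : ℕ) : ∀ {Y Z : C} {f : Y ⟶ Z}, I.JPow T k f →
    I.JPow T k (f ▷ T) := by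
  induction k with
  | zero => intro Y Z f _; trivial
  | succ k ih =>
    rintro Y Z f ⟨b, g, y, hg, hy, rfl⟩
    exact ⟨b + 1, g ▷ T, y ▷ T, ih hg, I.tensor T hy, comp_whiskerRight _ _ _⟩

/-- The first factor. -/
lemma JPow.head {T : C} (k : ℕ) : ∀ {Y : C} {d : ℕ} {f : Y ⟶ tp T d}, I.JPow T (k + 1) f →
    ∃ (c : ℕ) (y : Y ⟶ tp T c) (h : tp T c ⟶ tp T d), y ∈ I.J Y (tp T c) ∧ I.JPow T k h ∧
      f = y ≫ h := by
  induction k with
  | zero =>
    rintro Y d f ⟨b, g, y, -, hy, rfl⟩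
    exact ⟨d, g ≫ y, 𝟙 _, I.left g hy, trivial, (Category.comp_id _).symm⟩
  | succ k ih =>
    rintro Y d f ⟨b, g, y, hg, hy, rfl⟩
    obtain ⟨c, y', h, h1, h2, rfl⟩ := ih hg
    exact ⟨c, y', h ≫ y, h1, ⟨b, h, y, h2, hy, rfl⟩, Category.assoc _ _ _⟩

lemma JPow.num (hR : IsReal Λ R) {T : C} (k : ℕ) : ∀ {Y Z : C} {f : Y ⟶ Z}, I.JPow T k f →
    NumPow T k f := by
  induction k with
  | zero => intro Y Z f _; trivial
  | succ k ih =>
    rintro Y Z f ⟨b, g, y, hg, hy, rfl⟩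
    exact ⟨b, g, y, ih hg, numTriv_of_map hR (I.homTrivial hy), rfl⟩

end TrivialIdeal

namespace AbelJacobi

open TrivialIdeal

variable {I : TrivialIdeal Λ R} (A : AbelJacobi I)

/-- The vanishing of compositions. -/
theorem vanish {T : C} [ExactPairing T T] (h : IsPow Λ R T) {k : ℕ}
    (hk : RatioTo Λ T (fun n => kerDim A.aj (tp T n)) k) : I.Nilpotent T (k + 2) := by
  obtain ⟨-, hst⟩ := structure_thm h (kerF A.aj) hk
  have h0 : ∀ (b : ℕ) (f : tp T 0 ⟶ tp T b), I.JPow T (k + 2) f → f = 0 := by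
    intro b f hf
    obtain ⟨c, α, f₁, hα, hf₁, rfl⟩ := JPow.head I (k + 1) hf
    obtain ⟨d, g, f₂, hg, hf₂, rfl⟩ := JPow.head I k hf₁
    have h1 := hst d b f₂ (JPow.num I h.real k hf₂)
    let α' : I.ch.obj (tp T c) := (⟨α, hα⟩ : I.cyc (tp T c))
    have h2 : (A.aj.app (tp T d)).hom ((I.ch.map g).hom α') = 0 := by
      have h0 := congrArg (fun q : I.ch.obj (tp T c) ⟶ A.Sel.obj (tp T d) => q.hom α')
        (A.aj.naturality g)
      refine Eq.trans h0 ?_
      rw [A.factors hg]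
      rfl
    have h3 := congrArg (fun q : (kerF A.aj).obj (tp T d) ⟶ (kerF A.aj).obj (tp T b) =>
      q.hom (show (kerF A.aj).obj (tp T d) from
        (⟨(I.ch.map g).hom α', h2⟩ : LinearMap.ker (A.aj.app (tp T d)).hom))) h1
    have h4 : (α ≫ g) ≫ f₂ = 0 := congrArg (fun z : (kerF A.aj).obj (tp T b) =>
      (show I.cyc (tp T b) from
        (show LinearMap.ker (A.aj.app (tp T b)).hom from z).1).1) h3
    rw [← Category.assoc, h4]
  intro a
  induction a with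
  | zero => exact h0
  | succ a ih =>
    intro b f hf
    have h1 : Pool.Agent.N645.AFK1.cur Λ T (tp T a) (tp T b) f = 0 := by
      apply ih (b + 1)
      rw [Pool.Agent.N645.AFK1.cur_eq]
      exact JPow.comp I _ _ (JPow.whisker I _ hf)
    exact (LinearEquiv.map_eq_zero_iff _).1 h1

/-- **The law.** -/
theorem main {T : C} [ExactPairing T T] (h : IsPow Λ R T) :
    (∃ Nch Nsel Nker Ncok : ℕ∞, RatioTo Λ T (fun n => dimE Λ (I.ch.obj (tp T n))) Nch ∧
      RatioTo Λ T (fun n => dimE Λ (A.Sel.obj (tp T n))) Nsel ∧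
      RatioTo Λ T (fun n => kerDim A.aj (tp T n)) Nker ∧
      RatioTo Λ T (fun n => cokerDim A.aj (tp T n)) Ncok ∧
      Nch + Ncok = Nsel + Nker ∧ (Nker = 0 ↔ ∀ n, A.Inj (tp T n)) ∧
      (Ncok = 0 ↔ ∀ n, A.Onto (tp T n)) ∧ ∀ k : ℕ, Nker = k → I.Nilpotent T (k + 2)) ∧
    ∀ m n : ℕ, 128 * (m + 1) ^ 2 * bt R T ^ (2 * m + 6) ≤ 2 * n →
      (¬ A.Inj (tp T m) → Large Λ R T n (kerDim A.aj (tp T (2 * n)))) ∧
      (¬ A.Onto (tp T m) → Large Λ R T n (cokerDim A.aj (tp T (2 * n)))) := by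
  obtain ⟨Nch, a1, -⟩ := law h I.ch
  obtain ⟨Nsel, b1, -⟩ := law h A.Sel
  obtain ⟨Nker, c1, c2, -⟩ := law h (kerF A.aj)
  obtain ⟨Ncok, d1, d2, -⟩ := law h (cokF A.aj)
  refine ⟨⟨Nch, Nsel, Nker, Ncok, a1, b1, c1, d1, ?_,
    c2.trans (forall_congr' fun n => sub_ker A.aj _),
    d2.trans (forall_congr' fun n => sub_cok A.aj _), ?_⟩, fun m n hn => ⟨fun hm => ?_, fun hm => ?_⟩⟩
  · have e1 := a1.add d1
    have e2 := b1.add c1
    have e3 : ∀ n, ((dimE Λ (I.ch.obj (tp T n)) : ℕ∞) : ℝ≥0∞) / numRank Λ (tp T n) +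
        ((dimE Λ ((cokF A.aj).obj (tp T n)) : ℕ∞) : ℝ≥0∞) / numRank Λ (tp T n) =
        ((dimE Λ (A.Sel.obj (tp T n)) : ℕ∞) : ℝ≥0∞) / numRank Λ (tp T n) +
        ((dimE Λ ((kerF A.aj).obj (tp T n)) : ℕ∞) : ℝ≥0∞) / numRank Λ (tp T n) := by
      intro n
      have e4 := congrArg (fun z : ℕ∞ => (z : ℝ≥0∞)) (dim_sum A.aj (tp T n))
      simp only [ENat.toENNReal_add] at e4
      rw [← ENNReal.add_div, ← ENNReal.add_div]
      congr 1
    have e5 := tendsto_nhds_unique (e1.congr e3) e2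
    exact_mod_cast e5
  · rintro k rfl
    exact A.vanish h c1
  · exact gap h (kerF A.aj) hn fun hs => hm ((sub_ker A.aj _).1 hs)
  · exact gap h (cokF A.aj) hn fun hs => hm ((sub_cok A.aj _).1 hs)

end AbelJacobi

end Pool.Agent.Run7.h184.AJ
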