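import Pool.Agent.N64.AF.M1
import Pool.Agent.N64.AF.L1

/-!
# Abel–Jacobi maps in a tensor category: definitions

`C` is a `Λ`-linear rigid symmetric monoidal category with a realisation `R`. In the intended use the
objects of `C` are the smooth projective varieties over a number field `k`, the morphisms from `Y` to
`Z` are the elements of `CH^*(Y × Z) ⊗ ℚ_p` (all codimensions), `Λ = ℚ_p`, and `R` is the étale
cohomology of the varieties over the algebraic closure of `k`. Then `𝟙_ C ⟶ Y` is
`CH^*(Y) ⊗ ℚ_p`, where `CH^*` is the sum of the Chow groups of all codimensions.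
-/

set_option autoImplicit false

open CategoryTheory Limits MonoidalCategory Module
open Pool.Agent.Y112.SR Pool.Agent.Y112.KD Pool.Agent.N64.AF

namespace Pool.Agent.Run7.h184.AJ

universe v u w t

variable {C : Type u} [Category.{v} C] [Preadditive C] [MonoidalCategory C]
  [SymmetricCategory C]

/-- A tensor ideal of morphisms with trivial realisation; in the intended use `J Y Z` is the space
`CH^*(Y × Z)_0 ⊗ ℚ_p` of the homologically trivial correspondences. -/
structure TrivialIdeal (Λ : Type t) [Field Λ] [Linear Λ C] {K : Type w} [Field K]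
    (R : SuperRealisation C K) where
  /-- the homologically trivial morphisms -/
  J : ∀ Y Z : C, Submodule Λ (Y ⟶ Z)
  left : ∀ {X Y Z : C} (f : X ⟶ Y) {g : Y ⟶ Z}, g ∈ J Y Z → f ≫ g ∈ J X Z
  right : ∀ {X Y Z : C} {f : X ⟶ Y} (g : Y ⟶ Z), f ∈ J X Y → f ≫ g ∈ J X Z
  tensor : ∀ {Y Z : C} (W : C) {f : Y ⟶ Z}, f ∈ J Y Z → f ▷ W ∈ J (Y ⊗ W) (Z ⊗ W)
  homTrivial : ∀ {Y Z : C} {f : Y ⟶ Z}, f ∈ J Y Z → R.H.map f = 0

namespace TrivialIdeal

variable {Λ : Type t} [Field Λ] [Linear Λ C] {K : Type w} [Field K] {R : SuperRealisation C K}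
  (I : TrivialIdeal Λ R)

/-- The space of the homologically trivial cycles on `Y`. -/
def cyc (Y : C) : Submodule Λ ((homF Λ (𝟙_ C)).obj Y) := I.J (𝟙_ C) Y

lemma cyc_stab : IsStab (homF Λ (𝟙_ C)) I.cyc :=
  fun _ _ f _ ha => I.right f ha

/-- The functor of the homologically trivial cycles. -/
def ch : C ⥤ ModuleCat.{v} Λ := sub (homF Λ (𝟙_ C)) I.cyc I.cyc_stab

/-- The morphism `f` is a composition `f = g ≫ y₁ ≫ ⋯ ≫ y_k`, where `y₁, …, y_k` are homologically
trivial and their sources are tensor powers of `T` (powers of the variety). -/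
def JPow (T : C) : ℕ → ∀ {Y Z : C}, (Y ⟶ Z) → Prop
  | 0, _, _, _ => True
  | k + 1, Y, Z, f => ∃ (b : ℕ) (g : Y ⟶ tp T b) (y : tp T b ⟶ Z),
      JPow T k g ∧ y ∈ I.J (tp T b) Z ∧ f = g ≫ y

/-- Each composition of `k` homologically trivial morphisms between powers of `T` is zero. -/
def Nilpotent (T : C) (k : ℕ) : Prop :=
  ∀ (a b : ℕ) (f : tp T a ⟶ tp T b), I.JPow T k f → f = 0

end TrivialIdeal

/-- The data of an Abel–Jacobi map: `Sel Y` is the sum of the Selmer groups
`H^1_f(k, H^(2 c - 1)(Y, ℚ_p(c)))` over all `c`, and `aj` at `Y` is the sum of the `p`-adic Abel–Jacobi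
maps `CH^c(Y)_0 ⊗ ℚ_p → H^1_f(k, H^(2 c - 1)(Y, ℚ_p(c)))`. Homologically trivial correspondences act
as zero on the Selmer groups, since correspondences act through their action on the cohomology, and
the Abel–Jacobi maps are compatible with correspondences (`aj` is a natural transformation). -/
structure AbelJacobi {Λ : Type t} [Field Λ] [Linear Λ C] {K : Type w} [Field K]
    {R : SuperRealisation C K} (I : TrivialIdeal Λ R) where
  /-- the Selmer groups -/
  Sel : C ⥤ ModuleCat.{v} Λ
  [additive : Sel.Additive]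
  [linear : Sel.Linear Λ]
  factors : ∀ {Y Z : C} {f : Y ⟶ Z}, f ∈ I.J Y Z → Sel.map f = 0
  /-- the Abel–Jacobi maps -/
  aj : I.ch ⟶ Sel

attribute [instance] AbelJacobi.additive AbelJacobi.linear

namespace AbelJacobi

variable {Λ : Type t} [Field Λ] [Linear Λ C] {K : Type w} [Field K] {R : SuperRealisation C K}
  {I : TrivialIdeal Λ R} (A : AbelJacobi I)

/-- The Abel–Jacobi map of `Y` is injective. -/
def Inj (Y : C) : Prop := Function.Injective (A.aj.app Y)

/-- The Abel–Jacobi map of `Y` is onto. -/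
def Onto (Y : C) : Prop := Function.Surjective (A.aj.app Y)

end AbelJacobi

/-- The number `d` is at least one half of the rank of the group of the algebraic cycles on `T ^ (2 n)`
modulo numerical equivalence, and at least `b ^ (2 n) / (2 (n + 1) ^ (b ^ 2))`, where `b` is the
dimension of the realisation of `T` (the sum of the Betti numbers). -/
def Large [MonoidalPreadditive C] [RightRigidCategory C] (Λ : Type t) [Field Λ] [Linear Λ C]
    [MonoidalLinear Λ C] {K : Type w} [Field K] (R : SuperRealisation C K) (T : C) (n : ℕ)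
    (d : ℕ∞) : Prop :=
  (numRank Λ (tp T (2 * n)) : ℕ∞) ≤ 2 * d ∧
  ((bt R T ^ (2 * n) : ℕ) : ℕ∞) ≤ (2 * (n + 1) ^ (bt R T ^ 2) : ℕ) * d

end Pool.Agent.Run7.h184.AJ
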